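import Pool.Agent.Q260.DT.Stm

/-! Project DT (helper260): jobs OM, KB, SZ. -/

set_option autoImplicit false

namespace Pool.Agent.Q184.DT

open Complex Filter Topology Metric Set MeasureTheory
open Pool.Agent.Q260.DS (Sys Nm EE NZ)
open Pool.Agent.Q260.DT
open scoped ComplexConjugate

theorem t_OM : S_OM := by
  intro ϑ a u ha hu hne
  obtain ⟨w, hw⟩ : ∃ w : ℂ, w = u * cexp (-(2 * I * ((ϑ * a : ℝ) : ℂ))) := ⟨_, rfl⟩
  have hwn : ‖w‖ = 1 := by
    rw [hw, norm_mul, hu, one_mul]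
    have : -(2 * I * ((ϑ * a : ℝ) : ℂ)) = ((-(2 * (ϑ * a)) : ℝ) : ℂ) * I := by push_cast; ring
    rw [this, Complex.norm_exp_ofReal_mul_I]
  have huw : u = w * cexp (2 * I * ((ϑ * a : ℝ) : ℂ)) := by
    rw [hw, mul_assoc, ← Complex.exp_add, neg_add_cancel, Complex.exp_zero, mul_one]
  have hargw : cexp (arg w * I) = w := by
    have := Complex.norm_mul_exp_arg_mul_I w
    rwa [hwn, ofReal_one, one_mul] at this
  have hpi : arg w ≠ Real.pi := by
    intro h
    apply hne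
    have hw1 : w = -1 := by rw [← hargw, h, Complex.exp_pi_mul_I]
    rw [huw, hw1]; ring
  refine ⟨-ϑ - arg w / (2 * a), ?_, ?_⟩
  · have : ϑ + (-ϑ - arg w / (2 * a)) = -(arg w / (2 * a)) := by ring
    rw [this, abs_neg, abs_div, abs_of_pos (by positivity : (0:ℝ) < 2 * a)]
    have h1 := Complex.arg_mem_Ioc w
    have h2 : |arg w| < Real.pi := abs_lt.2 ⟨h1.1, lt_of_le_of_ne h1.2 hpi⟩
    exact div_lt_div_of_pos_right h2 (by positivity)
  · unfold uw
    have h3 : (-(2 * I * (((-ϑ - arg w / (2 * a)) * a : ℝ) : ℂ))) =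
        arg w * I + 2 * I * ((ϑ * a : ℝ) : ℂ) := by
      have ha' : (a : ℂ) ≠ 0 := by exact_mod_cast ha.ne'
      push_cast
      field_simp
      ring
    rw [h3, Complex.exp_add, hargw, ← huw]

theorem cosh_lower (X Y : ℝ) (hY : |Y| < Real.pi / 2) :
    Real.cos Y * Real.exp |X| / 2 ≤ ‖Complex.cosh ((X : ℂ) + (Y : ℂ) * I)‖ := by
  have hcos : 0 < Real.cos Y := Real.cos_pos_of_mem_Ioo (abs_lt.1 hY)
  have h1 : (Complex.cosh ((X : ℂ) + (Y : ℂ) * I)).re = Real.cosh X * Real.cos Y := by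
    rw [Complex.cosh_add, Complex.cosh_mul_I, Complex.sinh_mul_I, ← Complex.ofReal_cosh,
      ← Complex.ofReal_cos, ← Complex.ofReal_sinh, ← Complex.ofReal_sin]
    simp only [Complex.add_re, Complex.mul_re, Complex.ofReal_re, Complex.ofReal_im, Complex.I_re,
      Complex.I_im, Complex.mul_im]
    ring
  have h2 := Complex.abs_re_le_norm (Complex.cosh ((X : ℂ) + (Y : ℂ) * I))
  rw [h1] at h2
  have h3 : Real.exp |X| / 2 ≤ Real.cosh X := by
    rw [← Real.cosh_abs, Real.cosh_eq]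
    have := Real.exp_pos (-|X|)
    linarith
  have h4 : Real.cos Y * Real.exp |X| / 2 ≤ Real.cosh X * Real.cos Y := by
    have := mul_le_mul_of_nonneg_left h3 hcos.le
    linarith
  exact h4.trans ((le_abs_self _).trans h2)

theorem t_KB : S_KB := by
  intro a ω r ha hr
  set Y : ℝ := Real.pi * r / (2 * a) with hYdef
  have hY : |Y| < Real.pi / 2 := by
    rw [hYdef, abs_div, abs_mul, abs_of_pos Real.pi_pos, abs_of_pos (by positivity : (0:ℝ) < 2 * a),
      div_lt_div_iff₀ (by positivity) (by positivity)]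
    nlinarith [Real.pi_pos]
  have hcos : 0 < Real.cos Y := Real.cos_pos_of_mem_Ioo (abs_lt.1 hY)
  refine ⟨2 / Real.cos Y, fun v => ?_⟩
  set X : ℝ := Real.pi * v / (2 * a) with hXdef
  have ha' : (a : ℂ) ≠ 0 := by exact_mod_cast ha.ne'
  have h1 : (Real.pi * (v + I * r) / (2 * a) : ℂ) = (X : ℂ) + (Y : ℂ) * I := by
    rw [hXdef, hYdef]
    push_cast
    field_simp
    try ring
  have h2 := cosh_lower X Y hY
  have hXabs : |X| = Real.pi * |v| / (2 * a) := by
    rw [hXdef, abs_div, abs_mul, abs_of_pos Real.pi_pos, abs_of_pos (by positivity : (0:ℝ) < 2 * a)]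
  unfold KF
  rw [h1, norm_div, Complex.norm_exp]
  have h3 : (I * ω * (I * v + a - r) : ℂ).re = -(ω * v) := by
    simp [Complex.mul_re, Complex.add_re, Complex.sub_re, Complex.mul_im, Complex.add_im]
  rw [h3, Real.exp_sub, ← hXabs]
  have hpos : 0 < Real.cos Y * Real.exp |X| / 2 := by positivity
  have h4 : Real.exp (-(ω * v)) / ‖Complex.cosh ((X : ℂ) + (Y : ℂ) * I)‖ ≤
      Real.exp (-(ω * v)) / (Real.cos Y * Real.exp |X| / 2) :=
    div_le_div_of_nonneg_left (Real.exp_pos _).le hpos h2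
  refine h4.trans (le_of_eq ?_)
  have := (Real.exp_pos |X|).ne'
  field_simp

theorem log_lin (c η : ℝ) (hc : 0 ≤ c) (hη : 0 < η) : ∃ D : ℝ, 0 ≤ D ∧ ∀ t : ℝ, 0 ≤ t →
    c * Real.log (2 + t) ≤ η * t + D := by
  rcases hc.eq_or_lt with rfl | hc
  · exact ⟨0, le_rfl, fun t ht => by rw [zero_mul]; positivity⟩
  set ε := η / c with hε
  have hε0 : 0 < ε := by positivity
  refine ⟨|c * (ε * 2 - 1 - Real.log ε)|, abs_nonneg _, fun t ht => ?_⟩
  have h1 : Real.log (ε * (2 + t)) ≤ ε * (2 + t) - 1 := Real.log_le_sub_one_of_pos (by positivity)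
  rw [Real.log_mul hε0.ne' (by positivity)] at h1
  have h2 : Real.log (2 + t) ≤ ε * t + (ε * 2 - 1 - Real.log ε) := by linarith
  have h3 := mul_le_mul_of_nonneg_left h2 hc.le
  have h4 : c * (ε * t) = η * t := by rw [hε]; field_simp
  have h5 := le_abs_self (c * (ε * 2 - 1 - Real.log ε))
  rw [mul_add, h4] at h3
  linarith

theorem up1 {ϑ : ℝ} {f : ℂ → ℂ} {l g : ℝ → ℝ} (h : Rl ϑ f l g) {η R : ℝ} (hη : 0 < η) (hR : 0 ≤ R) :
    ∃ C : ℝ, 1 ≤ C ∧ ∀ y v x : ℝ, |x| ≤ R →
      ‖f (x + I * ((y + v : ℝ) : ℂ))‖ ≤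
        g y * Real.exp (C * (1 + |l y|) - ϑ * (|y + v| - |y|) + η * |v|) := by
  obtain ⟨K, A, y0, hK, hA, hs⟩ := h.sys
  have hK0 : (0:ℝ) ≤ K := by linarith
  set m' : ℝ := R + 3 / 2 with hm'
  have hm0 : 0 ≤ m' := by positivity
  obtain ⟨D, hD, hlog⟩ := log_lin (m' * K) (η / 2) (by positivity) (by positivity)
  obtain ⟨C2, hC2⟩ := h.rate (η / 2) (by positivity)
  refine ⟨1 + m' + D + K * (1 + R ^ 2) + |C2|, ?_, fun y v x hx => ?_⟩
  · have := abs_nonneg C2
    have : 0 ≤ K * (1 + R ^ 2) := by positivity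
    linarith
  have h1 := hs.up (y + v) (x : ℂ)
  have hgy := hs.pos y
  have hgv := hs.pos (y + v)
  have hre : |(x : ℂ).re| = |x| := by simp
  have hnx : ‖(x : ℂ)‖ = |x| := by simp
  rw [hre, hnx] at h1
  refine h1.trans ?_
  -- g (y+v)
  have h2 := hC2 y v
  have h3 : Real.log (g (y + v)) ≤ Real.log (g y) - ϑ * (|y + v| - |y|) + (η / 2) * |v| + |C2| := by
    have h4 := le_abs_self (Real.log (g (y + v)) - Real.log (g y) + ϑ * (|y + v| - |y|))
    have h5 := le_abs_self C2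
    linarith
  have h4 : l (y + v) ≤ |l y| + K * Real.log (2 + |v|) := by
    have h5 := hs.shift y v
    have h6 := le_abs_self (l (y + v) - l y)
    have h7 := le_abs_self (l y)
    linarith
  have hlv : 0 ≤ Real.log (2 + |v|) := Real.log_nonneg (by have := abs_nonneg v; linarith)
  have hb0 : 0 ≤ |l y| + K * Real.log (2 + |v|) := by
    have := abs_nonneg (l y)
    positivity
  have hm1 : max |x| (3 / 2) ≤ m' := max_le (by linarith) (by linarith)
  have hmx0 : 0 ≤ max |x| (3 / 2) := le_trans (abs_nonneg x) (le_max_left _ _)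
  have h5 : l (y + v) * max |x| (3 / 2) ≤ m' * |l y| + ((η / 2) * |v| + D) := by
    have h6 : l (y + v) * max |x| (3 / 2) ≤ (|l y| + K * Real.log (2 + |v|)) * max |x| (3 / 2) :=
      mul_le_mul_of_nonneg_right h4 hmx0
    have h7 : (|l y| + K * Real.log (2 + |v|)) * max |x| (3 / 2) ≤
        (|l y| + K * Real.log (2 + |v|)) * m' := mul_le_mul_of_nonneg_left hm1 hb0
    have h8 := hlog |v| (abs_nonneg v)
    nlinarith
  have h6 : K * (1 + |x| ^ 2) ≤ K * (1 + R ^ 2) := by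
    have : |x| ^ 2 ≤ R ^ 2 := pow_le_pow_left₀ (abs_nonneg x) hx 2
    gcongr
  have e1 : g (y + v) = Real.exp (Real.log (g (y + v))) := (Real.exp_log hgv).symm
  have e2 : g y = Real.exp (Real.log (g y)) := (Real.exp_log hgy).symm
  rw [e1, e2, ← Real.exp_add, ← Real.exp_add, Real.exp_le_exp]
  have h7 : 0 ≤ |l y| := abs_nonneg _
  have h8 : 0 ≤ K * (1 + R ^ 2) := by positivity
  have h9 : 0 ≤ |C2| := abs_nonneg _
  have h10 : (1 + m' + D + K * (1 + R ^ 2) + |C2|) * (1 + |l y|) ≥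
      m' * |l y| + D + K * (1 + R ^ 2) + |C2| := by
    nlinarith [mul_nonneg hD h7, mul_nonneg h8 h7, mul_nonneg h9 h7]
  linarith

theorem t_SZ : S_SZ := by
  intro ϑ f l g h η R hη hR
  refine ⟨?_, ?_⟩
  · obtain ⟨C, hC, hb⟩ := up1 h hη hR
    obtain ⟨T0, hT0⟩ := (h.lim.eventually (eventually_ge_atTop 1)).exists_forall_of_atTop
    refine ⟨max (2 * C) T0, le_trans (by linarith) (le_max_left _ _), fun T v x hT hx => ?_⟩
    have hl : 1 ≤ l T := hT0 T ((le_max_right _ _).trans hT)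
    have hTC : 2 * C ≤ T := (le_max_left _ _).trans hT
    have hT0' : 0 ≤ T := by linarith
    refine ⟨hl, (hb T v x hx).trans ?_⟩
    obtain ⟨K, A, y0, hK, hA, hs⟩ := h.sys
    refine mul_le_mul_of_nonneg_left (Real.exp_le_exp.2 ?_) (hs.pos T).le
    have h1 : |l T| = l T := abs_of_pos (by linarith)
    have h2 : T + v - T ≤ |T + v| - |T| := by
      rw [abs_of_nonneg hT0']
      linarith [le_abs_self (T + v)]
    have h3 : ϑ * v ≤ ϑ * (|T + v| - |T|) := mul_le_mul_of_nonneg_left (by linarith) h.th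
    have h4 : C * (1 + |l T|) ≤ max (2 * C) T0 * l T := by
      rw [h1]
      have h5 : 2 * C * l T ≤ max (2 * C) T0 * l T :=
        mul_le_mul_of_nonneg_right (le_max_left _ _) (by linarith)
      nlinarith
    linarith
  · intro z
    obtain ⟨C, hC, hb⟩ := up1 h hη (R := |z.re| + R) (by positivity)
    obtain ⟨K, A, y0, hK, hA, hs⟩ := h.sys
    refine ⟨g 0 * Real.exp (C * (1 + |l 0|) + ϑ * |z.im| + η * |z.im|), fun x v hx => ?_⟩
    have h1 := hb 0 (z.im + v) (z.re + x) ((abs_add_le _ _).trans (by linarith))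
    have e : (((z.re + x : ℝ) : ℂ) + I * ((0 + (z.im + v) : ℝ) : ℂ)) = z + x + I * v := by
      apply Complex.ext <;> simp
    rw [e] at h1
    refine h1.trans ?_
    rw [mul_assoc, ← Real.exp_add]
    refine mul_le_mul_of_nonneg_left (Real.exp_le_exp.2 ?_) (hs.pos 0).le
    rw [zero_add, abs_zero, sub_zero]
    have h2 : |v| ≤ |z.im + v| + |z.im| := by
      have := abs_sub (z.im + v) z.im
      rwa [add_sub_cancel_left] at this
    have h3 : |z.im + v| ≤ |z.im| + |v| := abs_add_le _ _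
    have h4 := mul_le_mul_of_nonneg_left h2 h.th
    have h5 := mul_le_mul_of_nonneg_left h3 hη.le
    linarith

end Pool.Agent.Q184.DT
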